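import Pool.Agent.Helper28_TP.StS

/-! # TPM: monotonicity in the inclusion probabilities (module PSM) -/

set_option autoImplicit false

namespace Pool.Agent.TP.H59

open Pool.Agent.TP

theorem ex_mono_q {α : Type} [DecidableEq α] (V : Finset α) (q q' : α → ℝ) (h : U01 V q)
    (h' : U01 V q') (hq : ∀ a ∈ V, q a ≤ q' a) (f : Finset α → ℝ)
    (hf : ∀ A B, A ⊆ B → f A ≤ f B) : EX V q f ≤ EX V q' f := by
  induction V using Finset.induction_on generalizing f with
  | empty => rw [EX_empty, EX_empty]
  | insert a V ha ih =>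
    have hV : U01 V q := fun b hb => h b (Finset.mem_insert_of_mem hb)
    have hV' : U01 V q' := fun b hb => h' b (Finset.mem_insert_of_mem hb)
    have hqV : ∀ b ∈ V, q b ≤ q' b := fun b hb => hq b (Finset.mem_insert_of_mem hb)
    rw [EX_insert ha, EX_insert ha]
    have h1 := ih hV hV' hqV f hf
    have h2 := ih hV hV' hqV (fun A => f (insert a A)) (fun A B hAB =>
      hf _ _ (Finset.insert_subset_insert a hAB))
    have h3 : EX V q f ≤ EX V q (fun A => f (insert a A)) :=
      EX_mono hV fun A _ => hf _ _ (Finset.subset_insert a A)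
    have h4 := hq a (Finset.mem_insert_self a V)
    have h5 := h' a (Finset.mem_insert_self a V)
    nlinarith [mul_le_mul_of_nonneg_left h2 h5.1,
      mul_le_mul_of_nonneg_left h1 (by linarith [h5.2] : 0 ≤ 1 - q' a),
      mul_nonneg (by linarith : 0 ≤ q' a - q a) (by linarith :
        0 ≤ EX V q (fun A => f (insert a A)) - EX V q f)]

theorem psm : PsmStmt := by
  classical
  intro α _ V q q' h h' hq E hE
  rw [PS_def, PS_def]
  refine ex_mono_q V q q' h h' hq _ fun A B hAB => ?_
  by_cases h1 : E A
  · rw [if_pos h1, if_pos (hE A B hAB h1)]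
  · rw [if_neg h1]
    split_ifs <;> norm_num

end Pool.Agent.TP.H59
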